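import Pool.Agent.Lib_MP_dd3545_lc.Turns
import Mathlib.Topology.Perfect
import Mathlib.Topology.MetricSpace.PiNat
import Mathlib.Topology.Compactness.Compact

/-!
The canonical homeomorphism `h_P : 2^ω → P` and its basic properties.
-/

namespace Pool.Agent.LibDD

open MeasureTheory Set
open scoped ENNReal Classical Topology

lemma isOpen_cyl (x : ℕ → Bool) (n : ℕ) : IsOpen (cyl x n) :=
  PiNat.isOpen_cylinder (fun _ => Bool) x n

lemma self_mem_cyl (x : ℕ → Bool) (n : ℕ) : x ∈ cyl x n := fun _ _ => rfl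

lemma splits_infinite {P : Set (ℕ → Bool)} (hP : Perfect P) {x : ℕ → Bool} (hx : x ∈ P) :
    (Set.ofPred (Splits P x)).Infinite := by
  rw [Set.infinite_iff_exists_gt]
  intro n
  obtain ⟨y, ⟨hy1, hy2⟩, hne⟩ := (accPt_iff_nhds.1 (hP.acc x hx)) (cyl x (n+1))
    ((isOpen_cyl x (n+1)).mem_nhds (self_mem_cyl x _))
  have hex : ∃ k, y k ≠ x k := by
    by_contra h
    push Not at h
    exact hne (funext h)
  refine ⟨Nat.find hex, ?_, ?_⟩
  · exact ⟨y, hy2, fun i hi => by
      have := Nat.find_min hex hi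
      push Not at this
      exact this, Nat.find_spec hex⟩
  · by_contra h
    push Not at h
    exact Nat.find_spec hex (hy1 _ (by omega))

lemma nbr_unbounded {P : Set (ℕ → Bool)} (hP : Perfect P) {x : ℕ → Bool} (hx : x ∈ P) (c : ℕ) :
    c < nbr P x (Nat.nth (Splits P x) c + 1) := by
  rw [nbr_succ, nbr, Nat.count_nth_of_infinite (splits_infinite hP hx),
    if_pos (Nat.nth_mem_of_infinite (splits_infinite hP hx) c)]
  omega

lemma turns_injOn {P : Set (ℕ → Bool)} : Set.InjOn (turns P) P := by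
  intro x hx y hy hxy
  by_contra hne
  have hex : ∃ k, x k ≠ y k := by
    by_contra h
    push Not at h
    exact hne (funext h)
  set n := Nat.find hex with hn
  have hag : ∀ i < n, x i = y i := fun i hi => by
    have := Nat.find_min hex hi
    push Not at this
    exact this
  have hd : x n ≠ y n := Nat.find_spec hex
  have s1 : Splits P x n := ⟨y, hy, fun i hi => (hag i hi).symm, hd.symm⟩
  have s2 : Splits P y n := ⟨x, hx, hag, hd⟩
  have e1 : turns P x (nbr P x n) = x n := by
    simp only [turns, nbr, Nat.nth_count s1]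
  have e2 : turns P y (nbr P y n) = y n := by
    simp only [turns, nbr, Nat.nth_count s2]
  rw [nbr_congr hag, hxy] at e1
  exact hd (e1.symm.trans e2)

/-- local continuity of `turns P` on `P` -/
lemma turns_loc {P : Set (ℕ → Bool)} (hP : Perfect P) {x : ℕ → Bool} (hx : x ∈ P) (c : ℕ) :
    ∃ n, ∀ z, (∀ i < n, z i = x i) → ∀ j ≤ c, turns P z j = turns P x j :=
  ⟨Nat.nth (Splits P x) c + 1, fun _ hz j hj =>
    turns_agree hz j (lt_of_le_of_lt hj (nbr_unbounded hP hx c))⟩

lemma isClosed_pre {P : Set (ℕ → Bool)} (hP : Perfect P) (y : ℕ → Bool) (c : ℕ) :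
    IsClosed {x ∈ P | ∀ j < c, turns P x j = y j} := by
  rw [← isOpen_compl_iff, isOpen_iff_mem_nhds]
  intro x hx
  by_cases hxP : x ∈ P
  · obtain ⟨n, hn⟩ := turns_loc hP hxP c
    refine Filter.mem_of_superset ((isOpen_cyl x n).mem_nhds (self_mem_cyl x n)) ?_
    intro z hz hz2
    apply hx
    refine ⟨hxP, fun j hj => ?_⟩
    rw [← hn z hz j hj.le]
    exact hz2.2 j hj
  · refine Filter.mem_of_superset (hP.closed.isOpen_compl.mem_nhds hxP) ?_
    intro z hz hz2
    exact hz hz2.1

lemma nonempty_pre {P : Set (ℕ → Bool)} (hP : Perfect P) (hne : P.Nonempty) (y : ℕ → Bool)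
    (c : ℕ) : {x ∈ P | ∀ j < c, turns P x j = y j}.Nonempty := by
  induction c with
  | zero => obtain ⟨x, hx⟩ := hne; exact ⟨x, hx, fun j hj => absurd hj (Nat.not_lt_zero j)⟩
  | succ c ih =>
    obtain ⟨x, hx, hxj⟩ := ih
    set n := Nat.nth (Splits P x) c with hn
    have hinf := splits_infinite hP hx
    have hs : Splits P x n := Nat.nth_mem_of_infinite hinf c
    have hcnt : nbr P x n = c := Nat.count_nth_of_infinite hinf c
    by_cases hxn : x n = y c
    · refine ⟨x, hx, fun j hj => ?_⟩
      rcases Nat.lt_succ_iff_lt_or_eq.1 hj with h | h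
      · exact hxj j h
      · rw [h]; exact hxn
    · obtain ⟨z, hz, hz1, hz2⟩ := hs
      have hzn : z n = y c := by
        cases h1 : z n <;> cases h2 : x n <;> cases h3 : y c <;> simp_all
      refine ⟨z, hz, fun j hj => ?_⟩
      have hc2 : nbr P z n = c := by rw [nbr_congr hz1, hcnt]
      rcases Nat.lt_succ_iff_lt_or_eq.1 hj with h | h
      · rw [turns_agree hz1 j (by rw [hcnt]; exact h)]
        exact hxj j h
      · rw [h]
        have s2 : Splits P z n := ⟨x, hx, fun i hi => (hz1 i hi).symm, hz2.symm⟩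
        have : Nat.nth (Splits P z) c = n := by
          rw [← hc2]; exact Nat.nth_count s2
        simp only [turns]
        rw [this]; exact hzn

lemma turns_surjOn {P : Set (ℕ → Bool)} (hP : Perfect P) (hne : P.Nonempty) (y : ℕ → Bool) :
    ∃ x ∈ P, turns P x = y := by
  have hcomp := IsCompact.nonempty_iInter_of_sequence_nonempty_isCompact_isClosed
    (fun c => {x ∈ P | ∀ j < c, turns P x j = y j})
    (fun c x hx => ⟨hx.1, fun j hj => hx.2 j (Nat.lt_succ_of_lt hj)⟩)
    (fun c => nonempty_pre hP hne y c)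
    (isClosed_pre hP y 0).isCompact
    (fun c => isClosed_pre hP y c)
  obtain ⟨x, hx⟩ := hcomp
  rw [Set.mem_iInter] at hx
  exact ⟨x, (hx 0).1, funext fun j => (hx (j+1)).2 j (Nat.lt_succ_self j)⟩

lemma turns_bijOn {P : Set (ℕ → Bool)} (hP : Perfect P) (hne : P.Nonempty) :
    Set.BijOn (turns P) P Set.univ :=
  ⟨fun _ _ => trivial, turns_injOn, fun y _ => turns_surjOn hP hne y⟩

lemma canonicalMap_mem {P : Set (ℕ → Bool)} (hP : Perfect P) (hne : P.Nonempty) (y : ℕ → Bool) :
    canonicalMap P y ∈ P :=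
  Function.invFunOn_mem (turns_surjOn hP hne y)

lemma turns_canonicalMap {P : Set (ℕ → Bool)} (hP : Perfect P) (hne : P.Nonempty) (y : ℕ → Bool) :
    turns P (canonicalMap P y) = y :=
  Function.invFunOn_eq (turns_surjOn hP hne y)

lemma canonicalMap_turns {P : Set (ℕ → Bool)} {x : ℕ → Bool} (hx : x ∈ P) :
    canonicalMap P (turns P x) = x :=
  turns_injOn.leftInvOn_invFunOn hx

lemma preimage_canonicalMap {P : Set (ℕ → Bool)} (hP : Perfect P) (hne : P.Nonempty)
    (A : Set (ℕ → Bool)) : canonicalMap P ⁻¹' A = turns P '' (P ∩ A) := by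
  ext y
  constructor
  · intro h
    exact ⟨canonicalMap P y, ⟨canonicalMap_mem hP hne y, h⟩, turns_canonicalMap hP hne y⟩
  · rintro ⟨x, ⟨hxP, hxA⟩, rfl⟩
    show canonicalMap P (turns P x) ∈ A
    rw [canonicalMap_turns hxP]
    exact hxA

lemma turns_image_cyl {P : Set (ℕ → Bool)} (hP : Perfect P) (hne : P.Nonempty)
    {x : ℕ → Bool} (hx : x ∈ P) (n : ℕ) :
    turns P '' (P ∩ cyl x n) = cyl (turns P x) (nbr P x n) := by
  apply Set.Subset.antisymm
  · rintro _ ⟨z, ⟨_, hz⟩, rfl⟩
    exact fun j hj => turns_agree hz j hj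
  · intro y hy
    obtain ⟨z, hz, hzy⟩ := turns_surjOn hP hne y
    refine ⟨z, ⟨hz, ?_⟩, hzy⟩
    intro i hi
    by_contra hne2
    have hex : ∃ k, z k ≠ x k := ⟨i, hne2⟩
    set m := Nat.find hex with hm
    have hmi : m ≤ i := Nat.find_min' hex hne2
    have hag : ∀ i < m, z i = x i := fun i hi => by
      have := Nat.find_min hex hi
      push Not at this
      exact this
    have hd : z m ≠ x m := Nat.find_spec hex
    have s1 : Splits P x m := ⟨z, hz, hag, hd⟩
    have s2 : Splits P z m := ⟨x, hx, fun i hi => (hag i hi).symm, hd.symm⟩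
    have e1 : turns P x (nbr P x m) = x m := by
      simp only [turns, nbr, Nat.nth_count s1]
    have e2 : turns P z (nbr P z m) = z m := by
      simp only [turns, nbr, Nat.nth_count s2]
    have hlt : nbr P x m < nbr P x n :=
      Nat.count_strict_mono s1 (lt_of_le_of_lt hmi hi)
    have := hy _ hlt
    rw [← hzy, e1, ← nbr_congr hag, e2] at this
    exact hd this

lemma continuous_canonicalMap {P : Set (ℕ → Bool)} (hP : Perfect P) (hne : P.Nonempty) :
    Continuous (canonicalMap P) := by
  rw [continuous_iff_continuousAt]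
  intro y
  rw [ContinuousAt, tendsto_pi_nhds]
  intro i
  have hx := canonicalMap_mem hP hne y
  have hux := turns_canonicalMap hP hne y
  set x := canonicalMap P y with hxdef
  apply tendsto_nhds_of_eventually_eq
  have hmem : cyl y (nbr P x (i+1)) ∈ 𝓝 y := (isOpen_cyl _ _).mem_nhds (self_mem_cyl _ _)
  filter_upwards [hmem] with z hz
  rw [← hux, ← turns_image_cyl hP hne hx] at hz
  obtain ⟨w, ⟨hwP, hw⟩, rfl⟩ := hz
  rw [canonicalMap_turns hwP]
  exact hw i (Nat.lt_succ_self i)

/-- the characterisation by cylinders: `μ_P([x|n]) = 2^{-i}` where `i` is the number of branching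
points strictly below `x|n`. -/
lemma canonicalMeasure_cyl {P : Set (ℕ → Bool)} (hP : Perfect P) (hne : P.Nonempty)
    {x : ℕ → Bool} (hx : x ∈ P) (n : ℕ) :
    canonicalMeasure P (cyl x n) = (1/2) ^ (nbr P x n) := by
  rw [canonicalMeasure, Measure.map_apply (continuous_canonicalMap hP hne).measurable
    (measurableSet_cyl x n), preimage_canonicalMap hP hne, turns_image_cyl hP hne hx, coin_cyl]

end Pool.Agent.LibDD
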