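import Pool.Agent.Lib_MP_dd3545_lc.Defs
import Mathlib.Analysis.SpecificLimits.Basic
import Mathlib.MeasureTheory.OuterMeasure.BorelCantelli

/-!
Core combinatorial estimate: a weight function on the binary tree whose local splitting
probabilities lie in {0, 1/2, 1} is singular with respect to the (1/5, 4/5) Bernoulli weights.
Nodes are REVERSED lists: the child of `s` in direction `b` is `b :: s`.
-/

namespace Pool.Agent.LibDD

open MeasureTheory Set
open scoped ENNReal

/-- reversed prefix of length n -/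
def pre (x : ℕ → Bool) : ℕ → List Bool
  | 0 => []
  | n+1 => x n :: pre x n

@[simp] lemma pre_zero (x : ℕ → Bool) : pre x 0 = [] := rfl
@[simp] lemma pre_succ (x : ℕ → Bool) (n : ℕ) : pre x (n+1) = x n :: pre x n := rfl

lemma pre_length (x : ℕ → Bool) (n : ℕ) : (pre x n).length = n := by
  induction n with
  | zero => rfl
  | succ n ih => simp [ih]

lemma pre_eq_iff (x y : ℕ → Bool) (n : ℕ) : pre x n = pre y n ↔ ∀ i < n, x i = y i := by
  induction n with
  | zero => simp
  | succ n ih =>
    simp only [pre_succ, List.cons.injEq, ih]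
    constructor
    · rintro ⟨h1, h2⟩ i hi
      rcases Nat.lt_succ_iff_lt_or_eq.1 hi with h | h
      · exact h2 i h
      · rw [h]; exact h1
    · intro h
      exact ⟨h n (Nat.lt_succ_self n), fun i hi => h i (Nat.lt_succ_of_lt hi)⟩

/-- nodes of level n -/
def lev : ℕ → Finset (List Bool)
  | 0 => {[]}
  | n+1 => (lev n).image (fun s => true :: s) ∪ (lev n).image (fun s => false :: s)

lemma mem_lev {n : ℕ} {s : List Bool} : s ∈ lev n ↔ s.length = n := by
  induction n generalizing s with
  | zero => simp [lev]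
  | succ n ih =>
    simp only [lev, Finset.mem_union, Finset.mem_image]
    constructor
    · rintro (⟨a, ha, rfl⟩ | ⟨a, ha, rfl⟩) <;> simp [ih.1 ha]
    · intro h
      match s, h with
      | true :: t, h => left; exact ⟨t, ih.2 (by simpa using h), rfl⟩
      | false :: t, h => right; exact ⟨t, ih.2 (by simpa using h), rfl⟩

lemma pre_mem_lev (x : ℕ → Bool) (n : ℕ) : pre x n ∈ lev n := mem_lev.2 (pre_length x n)

lemma sum_lev_succ {M : Type*} [AddCommMonoid M] (n : ℕ) (f : List Bool → M) :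
    ∑ s ∈ lev (n+1), f s = ∑ s ∈ lev n, (f (true :: s) + f (false :: s)) := by
  rw [lev, Finset.sum_union, Finset.sum_image, Finset.sum_image, Finset.sum_add_distrib]
  · intro a _ b _ h; simpa using h
  · intro a _ b _ h; simpa using h
  · rw [Finset.disjoint_left]
    intro a ha hb
    simp only [Finset.mem_image] at ha hb
    obtain ⟨c, _, rfl⟩ := ha
    obtain ⟨d, _, h⟩ := hb
    simp at h

/-- Bernoulli(1/5,4/5) weights: `false` has weight 1/5, `true` has weight 4/5. -/
noncomputable def pb (b : Bool) : ℝ := if b then 4/5 else 1/5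

/-- Bernoulli weight of a node -/
noncomputable def bw : List Bool → ℝ
  | [] => 1
  | b :: s => pb b * bw s

lemma bw_nil : bw [] = 1 := rfl
lemma bw_cons (b : Bool) (s : List Bool) : bw (b :: s) = pb b * bw s := rfl

lemma pb_pos (b : Bool) : 0 < pb b := by cases b <;> simp [pb]

lemma bw_pos (s : List Bool) : 0 < bw s := by
  induction s with
  | nil => simp [bw]
  | cons b s ih => rw [bw_cons]; exact mul_pos (pb_pos b) ih

/-- the local splitting condition of canonical measures -/
structure Splitting (w : List Bool → ℝ) : Prop where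
  nonneg : ∀ s, 0 ≤ w s
  root : w [] ≤ 1
  step : ∀ s, (w (true :: s) ≤ w s / 2 ∧ w (false :: s) ≤ w s / 2) ∨
    (w (true :: s) ≤ w s ∧ w (false :: s) = 0) ∨ (w (true :: s) = 0 ∧ w (false :: s) ≤ w s)

noncomputable def rho : ℝ := Real.sqrt (9/10)

lemma rho_pos : 0 < rho := Real.sqrt_pos.2 (by norm_num)
lemma rho_lt_one : rho < 1 := by
  rw [rho, Real.sqrt_lt' (by norm_num)]; norm_num

lemma local_bound {a v w1 w2 : ℝ} (ha : 0 ≤ a) (hv : 0 ≤ v)
    (h : (w1 ≤ a / 2 ∧ w2 ≤ a / 2) ∨ (w1 ≤ a ∧ w2 = 0) ∨ (w1 = 0 ∧ w2 ≤ a)) :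
    Real.sqrt (w1 * (4/5 * v)) + Real.sqrt (w2 * (1/5 * v)) ≤ rho * Real.sqrt (a * v) := by
  have key : rho * Real.sqrt (a * v) = Real.sqrt (9/10 * (a * v)) := by
    rw [rho, ← Real.sqrt_mul (by norm_num)]
  rcases h with ⟨h1', h2'⟩ | ⟨h1', h2'⟩ | ⟨h1', h2'⟩
  · have e1 : Real.sqrt (w1 * (4/5 * v)) ≤ 2 * Real.sqrt (a * v / 10) := by
      rw [show (2:ℝ) * Real.sqrt (a * v / 10) = Real.sqrt (4 * (a * v / 10)) by
        rw [Real.sqrt_mul (by norm_num), show Real.sqrt 4 = 2 by
          rw [show (4:ℝ) = 2^2 by norm_num, Real.sqrt_sq (by norm_num)]]]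
      apply Real.sqrt_le_sqrt
      nlinarith [mul_le_mul_of_nonneg_right h1' hv]
    have e2 : Real.sqrt (w2 * (1/5 * v)) ≤ Real.sqrt (a * v / 10) := by
      apply Real.sqrt_le_sqrt
      nlinarith [mul_le_mul_of_nonneg_right h2' hv]
    have e3 : rho * Real.sqrt (a * v) = 3 * Real.sqrt (a * v / 10) := by
      rw [key, show (9/10 * (a * v) : ℝ) = 9 * (a * v / 10) by ring,
        Real.sqrt_mul (by norm_num), show Real.sqrt 9 = 3 by
          rw [show (9:ℝ) = 3^2 by norm_num, Real.sqrt_sq (by norm_num)]]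
    rw [e3]; linarith
  · rw [h2', zero_mul, Real.sqrt_zero, add_zero, key]
    apply Real.sqrt_le_sqrt
    nlinarith [mul_le_mul_of_nonneg_right h1' hv, mul_nonneg ha hv]
  · rw [h1', zero_mul, Real.sqrt_zero, zero_add, key]
    apply Real.sqrt_le_sqrt
    nlinarith [mul_le_mul_of_nonneg_right h2' hv, mul_nonneg ha hv]

/-- Hellinger affinity decays exponentially -/
lemma hellinger {w : List Bool → ℝ} (hw : Splitting w) (n : ℕ) :
    ∑ s ∈ lev n, Real.sqrt (w s * bw s) ≤ rho ^ n := by
  induction n with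
  | zero =>
    simp only [lev, Finset.sum_singleton, bw_nil, mul_one, pow_zero]
    rw [Real.sqrt_le_one]
    exact hw.root
  | succ n ih =>
    rw [sum_lev_succ]
    calc ∑ s ∈ lev n, (Real.sqrt (w (true :: s) * bw (true :: s))
          + Real.sqrt (w (false :: s) * bw (false :: s)))
        ≤ ∑ s ∈ lev n, rho * Real.sqrt (w s * bw s) := by
          apply Finset.sum_le_sum
          intro s _
          have := local_bound (hw.nonneg s) (bw_pos s).le (hw.step s)
          simpa [bw_cons, pb] using this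
      _ = rho * ∑ s ∈ lev n, Real.sqrt (w s * bw s) := by rw [Finset.mul_sum]
      _ ≤ rho * rho ^ n := by
          exact mul_le_mul_of_nonneg_left ih rho_pos.le
      _ = rho ^ (n+1) := by ring

lemma sum_light {w : List Bool → ℝ} (hw : Splitting w) (n : ℕ) :
    ∑ s ∈ (lev n).filter (fun s => w s < bw s), w s ≤ rho ^ n := by
  refine le_trans ?_ (hellinger hw n)
  refine le_trans (Finset.sum_le_sum (g := fun s => Real.sqrt (w s * bw s)) ?_)
    (Finset.sum_le_sum_of_subset_of_nonneg (Finset.filter_subset _ _)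
      (fun s _ _ => Real.sqrt_nonneg _))
  intro s hs
  have h := (Finset.mem_filter.1 hs).2
  apply Real.le_sqrt_of_sq_le
  nlinarith [hw.nonneg s]

lemma sum_heavy {w : List Bool → ℝ} (hw : Splitting w) (n : ℕ) :
    ∑ s ∈ (lev n).filter (fun s => bw s ≤ w s), bw s ≤ rho ^ n := by
  refine le_trans ?_ (hellinger hw n)
  refine le_trans (Finset.sum_le_sum (g := fun s => Real.sqrt (w s * bw s)) ?_)
    (Finset.sum_le_sum_of_subset_of_nonneg (Finset.filter_subset _ _)
      (fun s _ _ => Real.sqrt_nonneg _))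
  intro s hs
  have h := (Finset.mem_filter.1 hs).2
  apply Real.le_sqrt_of_sq_le
  nlinarith [bw_pos s]

/-- the exceptional set -/
def exc (w : List Bool → ℝ) : Set (ℕ → Bool) :=
  {x | ∀ m, ∃ n, m ≤ n ∧ bw (pre x n) ≤ w (pre x n)}

/-- combinatorial singularity: outside the exceptional set everything is covered by
light nodes of small total w-weight -/
lemma exists_cover {w : List Bool → ℝ} (hw : Splitting w) {ε : ℝ} (hε : 0 < ε) :
    ∃ C : Set (List Bool), (∑' s : C, ENNReal.ofReal (w s)) ≤ ENNReal.ofReal ε ∧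
      ∀ x ∉ exc w, ∃ n, pre x n ∈ C := by
  -- choose levels n_m ≥ m with rho^{n_m} ≤ ε / 2^{m+1}
  have hch : ∀ m : ℕ, ∃ n, m ≤ n ∧ rho ^ n ≤ ε / 2 / 2 ^ m := by
    intro m
    have hpos : 0 < ε / 2 / 2 ^ m := by positivity
    obtain ⟨k, hk⟩ := exists_pow_lt_of_lt_one hpos rho_lt_one
    refine ⟨max m k, le_max_left _ _, ?_⟩
    refine le_trans ?_ hk.le
    exact pow_le_pow_of_le_one rho_pos.le rho_lt_one.le (le_max_right _ _)
  choose N hN1 hN2 using hch
  refine ⟨⋃ m, ((lev (N m)).filter (fun s => w s < bw s) : Finset (List Bool)), ?_, ?_⟩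
  · refine le_trans (ENNReal.tsum_iUnion_le_tsum (fun s => ENNReal.ofReal (w s)) _) ?_
    have h1 : ∀ m : ℕ, (∑' s : (((lev (N m)).filter (fun s => w s < bw s) : Finset (List Bool)) : Set (List Bool)),
        ENNReal.ofReal (w s)) ≤ ENNReal.ofReal (ε / 2 / 2 ^ m) := by
      intro m
      rw [Finset.tsum_subtype' ((lev (N m)).filter (fun s => w s < bw s)) (fun s => ENNReal.ofReal (w s)),
        ← ENNReal.ofReal_sum_of_nonneg (fun s _ => hw.nonneg s)]
      exact ENNReal.ofReal_le_ofReal ((sum_light hw (N m)).trans (hN2 m))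
    refine le_trans (ENNReal.tsum_le_tsum h1) ?_
    rw [← ENNReal.ofReal_tsum_of_nonneg (fun m => by positivity) (summable_geometric_two' ε),
      tsum_geometric_two']
  · intro x hx
    simp only [exc, Set.mem_ofPred_eq, not_forall, not_exists, not_and, not_le] at hx
    obtain ⟨m, hm⟩ := hx
    refine ⟨N m, ?_⟩
    rw [Set.mem_iUnion]
    refine ⟨m, ?_⟩
    simp only [Finset.coe_filter, Set.mem_ofPred_eq]
    exact ⟨pre_mem_lev x _, hm _ (hN1 m)⟩

end Pool.Agent.LibDD
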