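import Mathlib.Probability.ProductMeasure
import Mathlib.Data.Nat.Nth
import Mathlib.Data.Nat.Count
import Mathlib.Topology.Perfect

/-!
Definitions for MP_dd3545_lc: perfectly null and universally null subsets of Cantor space
`2^ω = (ℕ → Bool)`.
-/

namespace Pool.Agent.LibDD

open MeasureTheory Set
open scoped ENNReal Classical

/-- The measure on `Bool` with mass `p` at `true` and mass `q` at `false`. -/
noncomputable def bias (p q : ℝ≥0∞) : Measure Bool :=
  p • Measure.dirac true + q • Measure.dirac false

/-- The measure `m` on `2^ω`: the product of the fair coin measures. -/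
noncomputable def coin : Measure (ℕ → Bool) := Measure.infinitePi (fun _ : ℕ => bias (1/2) (1/2))

/-- For `x ∈ P`: the node `x|n` is a branching point of `P`, i.e. some `y ∈ P` agrees with `x`
below `n` and differs from `x` at `n`. -/
def Splits (P : Set (ℕ → Bool)) (x : ℕ → Bool) (n : ℕ) : Prop :=
  ∃ y ∈ P, (∀ i < n, y i = x i) ∧ y n ≠ x n

/-- For `x ∈ P`: the sequence of turns of `x` in `P`. Its `j`-th bit is the direction which `x`
takes at the `j`-th branching point of `P` along `x`. On a perfect set `P` this is the inverse
of the canonical homeomorphism `h_P : 2^ω → P` (see `turns_bijOn`). -/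
noncomputable def turns (P : Set (ℕ → Bool)) (x : ℕ → Bool) : ℕ → Bool :=
  fun j => x (Nat.nth (Splits P x) j)

/-- The canonical homeomorphism `h_P : 2^ω → P` of a nonempty perfect set `P`: the point
`h_P(y)` is the point `x ∈ P` whose sequence of turns is `y`. -/
noncomputable def canonicalMap (P : Set (ℕ → Bool)) : (ℕ → Bool) → (ℕ → Bool) :=
  Function.invFunOn (turns P) P

/-- The canonical measure `μ_P(B) = m(h_P⁻¹[B])` of a nonempty perfect set `P`. -/
noncomputable def canonicalMeasure (P : Set (ℕ → Bool)) : Measure (ℕ → Bool) :=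
  coin.map (canonicalMap P)

/-- `A` is perfectly null: `A ∩ P` is `P`-null, i.e. `m(h_P⁻¹[A ∩ P]) = 0`, for every
(nonempty) perfect set `P`. -/
def PerfectlyNull (A : Set (ℕ → Bool)) : Prop :=
  ∀ P : Set (ℕ → Bool), Perfect P → P.Nonempty → coin (canonicalMap P ⁻¹' (A ∩ P)) = 0

/-- `A` is universally null: `A` is null for (the completion of) every finite Borel measure on
`2^ω` which vanishes on singletons. -/
def UniversallyNull (A : Set (ℕ → Bool)) : Prop :=
  ∀ ν : Measure (ℕ → Bool), IsFiniteMeasure ν → (∀ x, ν {x} = 0) → ν A = 0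

end Pool.Agent.LibDD
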