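import Pool.Agent.Lib_Forcing.SetTheory
import Pool.Agent.Lib_MP_dd3545_lc.Defs

/-!
Perfectly null and universally null sets in the sense of an ω-model of set theory.
-/

namespace Pool.Agent.LibDD

open MeasureTheory Set Pool.Agent.Forcing
open scoped ENNReal

/-- code of a finite binary string (its binary digits, with a leading 1) -/
def strCode : List Bool → ℕ
  | [] => 1
  | b :: s => 2 * strCode s + (if b then 1 else 0)

/-- the basic clopen set `[s]` of all points of `2^ω` that extend the finite string `s` -/
def cylS (s : List Bool) : Set (ℕ → Bool) := {x | ∀ i, ∀ h : i < s.length, x i = s[i]}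

section
universe v
variable {M : Type v} (E : M → M → Prop)

/-- the set `C` of finite binary strings is coded in (belongs to) the ω-model `(M, E)` -/
def CodedStrings (C : Set (List Bool)) : Prop := Coded E (strCode '' C)

/-- the closed set `P ⊆ 2^ω` is coded in the ω-model `(M, E)`: its tree belongs to `M` -/
def CodedClosed (P : Set (ℕ → Bool)) : Prop := CodedStrings E {s | (P ∩ cylS s).Nonempty}

/-- the finite Borel measure `ν` on `2^ω` is coded in the ω-model `(M, E)`: the function
`s ↦ ν [s]`, given by its dyadic lower approximations, belongs to `M` -/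
def CodedMeasure (ν : Measure (ℕ → Bool)) : Prop :=
  Coded E {m | ∃ (s : List Bool) (k n : ℕ), m = Nat.pair (strCode s) (Nat.pair k n) ∧
    (k : ℝ≥0∞) < 2 ^ n * ν (cylS s)}

/-- `A` is, in `(M, E)`, a set of subsets of `ω` -/
def IsSetOfReals (A : M) : Prop := ∀ a, E a A → ∀ z, E z a → ∃ n, IsNum E n z

/-- the points of Cantor space that are (as characteristic functions of subsets of `ω`)
elements of `A` in `(M, E)` -/
def pts (A : M) : Set (ℕ → Bool) := {x | ∃ a, E a A ∧ natTrace E a = {n | x n = true}}

/-- in the ω-model `(M, E)`, the set `X` of points is null for the measure `μ`: for every `k` it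
is covered by a family, belonging to `M`, of basic clopen sets of total measure at most `2^{-k}` -/
def NullIn (X : Set (ℕ → Bool)) (μ : Measure (ℕ → Bool)) : Prop :=
  ∀ k : ℕ, ∃ C : Set (List Bool), CodedStrings E C ∧
    (∑' s : C, μ (cylS s)) ≤ (1/2) ^ k ∧ X ⊆ ⋃ s ∈ C, cylS s

/-- the ω-model `(M, E)` satisfies: `A` is perfectly null -/
def PerfectlyNullIn (A : M) : Prop :=
  ∀ P : Set (ℕ → Bool), Perfect P → P.Nonempty → CodedClosed E P →
    NullIn E (pts E A ∩ P) (canonicalMeasure P)

/-- the ω-model `(M, E)` satisfies: `A` is universally null -/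
def UniversallyNullIn (A : M) : Prop :=
  ∀ ν : Measure (ℕ → Bool), IsFiniteMeasure ν → (∀ x, ν {x} = 0) → CodedMeasure E ν →
    NullIn E (pts E A) ν

end

end Pool.Agent.LibDD
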