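import Pool.Agent.Lib_MP_dd3545_lc.Canon

/-!
The Bernoulli measure `bern` is singular with respect to every canonical measure, and
Sierpinski-type sets for `bern` are perfectly null.
-/

namespace Pool.Agent.LibDD

open MeasureTheory Set
open scoped ENNReal

theorem canonicalMeasure_mutuallySingular {P : Set (ℕ → Bool)} (hP : Perfect P)
    (hne : P.Nonempty) : canonicalMeasure P ⟂ₘ bern := by
  refine ⟨(exc (wt P))ᶜ, (measurableSet_exc _).compl, ?_, ?_⟩
  · rw [canonicalMeasure, Measure.map_apply (continuous_canonicalMap hP hne).measurable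
      (measurableSet_exc _).compl, preimage_canonicalMap hP hne]
    have : P ∩ (exc (wt P))ᶜ = P \ exc (wt P) := rfl
    rw [this]
    exact coin_turns_diff_exc P
  · rw [compl_compl]
    exact bern_exc (splitting_wt P)

theorem perfectlyNull_of_sierpinski {A : Set (ℕ → Bool)}
    (hA : ∀ N, bern N = 0 → (A ∩ N).Countable) : PerfectlyNull A := by
  intro P hP hne
  rw [preimage_canonicalMap hP hne]
  have hsub : turns P '' (P ∩ (A ∩ P)) ⊆
      turns P '' (A ∩ exc (wt P)) ∪ turns P '' (P \ exc (wt P)) := by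
    rintro _ ⟨x, ⟨hxP, hxA, _⟩, rfl⟩
    by_cases hx : x ∈ exc (wt P)
    · left; exact ⟨x, ⟨hxA, hx⟩, rfl⟩
    · right; exact ⟨x, ⟨hxP, hx⟩, rfl⟩
  refine measure_mono_null hsub (measure_union_null ?_ (coin_turns_diff_exc P))
  exact ((hA _ (bern_exc (splitting_wt P))).image _).measure_zero _

end Pool.Agent.LibDD
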