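import Pool.Agent.Lib_MP_dd3545_lc.Core

/-!
Bernoulli product measures on Cantor space and nullness of the exceptional set.
-/

namespace Pool.Agent.LibDD

open MeasureTheory Set
open scoped ENNReal

lemma bias_true (p q : ℝ≥0∞) : bias p q {true} = p := by
  simp [bias]

lemma bias_false (p q : ℝ≥0∞) : bias p q {false} = q := by
  simp [bias]

lemma bias_prob {p q : ℝ≥0∞} (h : p + q = 1) : IsProbabilityMeasure (bias p q) := by
  constructor
  simp [bias, h]

/-- The (4/5, 1/5) Bernoulli measure on Cantor space. -/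
noncomputable def bern : Measure (ℕ → Bool) := Measure.infinitePi (fun _ : ℕ => bias (4/5) (1/5))

instance inst_fair : IsProbabilityMeasure (bias (1/2) (1/2)) := bias_prob (by
  rw [one_div, ENNReal.inv_two_add_inv_two])

lemma four_fifth : (4/5 : ℝ≥0∞) = ENNReal.ofReal (4/5) := by
  rw [ENNReal.ofReal_div_of_pos (by norm_num)]; simp

lemma one_fifth : (1/5 : ℝ≥0∞) = ENNReal.ofReal (1/5) := by
  rw [ENNReal.ofReal_div_of_pos (by norm_num)]; simp

instance inst_biased : IsProbabilityMeasure (bias (4/5) (1/5)) := bias_prob (by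
  rw [four_fifth, one_fifth, ← ENNReal.ofReal_add (by norm_num) (by norm_num)]
  norm_num)

instance : IsProbabilityMeasure coin := by unfold coin; infer_instance
instance : IsProbabilityMeasure bern := by unfold bern; infer_instance

/-- cylinder of all points agreeing with x below n -/
def cyl (x : ℕ → Bool) (n : ℕ) : Set (ℕ → Bool) := {y | ∀ i < n, y i = x i}

lemma cyl_eq_pi (x : ℕ → Bool) (n : ℕ) :
    cyl x n = Set.pi (Finset.range n : Finset ℕ) (fun i => {x i}) := by
  ext y; simp [cyl, Set.pi]

lemma measurableSet_cyl (x : ℕ → Bool) (n : ℕ) : MeasurableSet (cyl x n) := by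
  rw [cyl_eq_pi]
  exact MeasurableSet.pi (Finset.countable_toSet _) (fun i _ => measurableSet_singleton _)

lemma coin_cyl (x : ℕ → Bool) (n : ℕ) : coin (cyl x n) = (1/2) ^ n := by
  rw [cyl_eq_pi, coin, Measure.infinitePi_pi _ (fun i _ => measurableSet_singleton _)]
  have : ∀ i : ℕ, bias (1/2) (1/2) {x i} = (1/2 : ℝ≥0∞) := by
    intro i; cases x i
    · exact bias_false _ _
    · exact bias_true _ _
  rw [Finset.prod_congr rfl (fun i _ => this i)]
  simp

lemma bern_cyl (x : ℕ → Bool) (n : ℕ) : bern (cyl x n) = ENNReal.ofReal (bw (pre x n)) := by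
  rw [cyl_eq_pi, bern, Measure.infinitePi_pi _ (fun i _ => measurableSet_singleton _)]
  induction n with
  | zero => simp [bw]
  | succ n ih =>
    rw [Finset.prod_range_succ, ih, pre_succ, bw_cons, ENNReal.ofReal_mul (pb_pos _).le, mul_comm]
    congr 1
    cases x n
    · rw [bias_false, one_fifth]; simp [pb]
    · rw [bias_true, four_fifth]; simp [pb]

/-- nodes as sets -/
def node (s : List Bool) : Set (ℕ → Bool) := {x | pre x s.length = s}

lemma node_pre (x : ℕ → Bool) (n : ℕ) : node (pre x n) = cyl x n := by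
  ext y; simp only [node, cyl, pre_length, Set.mem_ofPred_eq]
  exact pre_eq_iff y x n

/-- extend a reversed list to a point -/
def ext (s : List Bool) : ℕ → Bool := fun i => s.reverse.getD i false

lemma exists_pre (s : List Bool) : ∃ x, pre x s.length = s := by
  induction s with
  | nil => exact ⟨fun _ => false, rfl⟩
  | cons b s ih =>
    obtain ⟨x, hx⟩ := ih
    refine ⟨Function.update x s.length b, ?_⟩
    simp only [List.length_cons, pre_succ, Function.update_self, List.cons.injEq, true_and]
    rw [← hx, pre_length, pre_eq_iff]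
    intro i hi
    rw [Function.update_of_ne hi.ne]

lemma measurableSet_node (s : List Bool) : MeasurableSet (node s) := by
  obtain ⟨x, hx⟩ := exists_pre s
  rw [← hx, node_pre]; exact measurableSet_cyl _ _

lemma bern_node (s : List Bool) : bern (node s) = ENNReal.ofReal (bw s) := by
  obtain ⟨x, hx⟩ := exists_pre s
  rw [← hx, node_pre, bern_cyl]

lemma noAtoms_of_cyl {μ : Measure (ℕ → Bool)} {c : ℝ≥0∞} (hc : c < 1)
    (h : ∀ x n, μ (cyl x n) ≤ c ^ n) : NullSingletonClass μ := by
  constructor
  intro x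
  have h1 : ∀ n, μ {x} ≤ c ^ n := fun n =>
    (measure_mono (by intro y hy; rw [Set.mem_singleton_iff.1 hy]; intro i _; rfl)).trans (h x n)
  have h2 : Filter.Tendsto (fun n => c ^ n) Filter.atTop (nhds 0) :=
    ENNReal.tendsto_pow_atTop_nhds_zero_of_lt_one hc
  exact le_antisymm (ge_of_tendsto' h2 h1) bot_le

instance : NullSingletonClass coin := noAtoms_of_cyl (c := 1/2)
  (by rw [one_div]; exact ENNReal.inv_lt_one.2 ENNReal.one_lt_two) (fun x n => (coin_cyl x n).le)

lemma bw_le (x : ℕ → Bool) (n : ℕ) : bw (pre x n) ≤ (4/5) ^ n := by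
  induction n with
  | zero => simp [bw]
  | succ n ih =>
    rw [pre_succ, bw_cons, pow_succ, mul_comm]
    apply mul_le_mul ih _ (pb_pos _).le (by positivity)
    cases x n <;> simp [pb]; norm_num

instance : NullSingletonClass bern := noAtoms_of_cyl (c := ENNReal.ofReal (4/5))
  (by rw [← ENNReal.ofReal_one]; exact (ENNReal.ofReal_lt_ofReal_iff (by norm_num)).2 (by norm_num))
  (fun x n => by
    rw [bern_cyl, ← ENNReal.ofReal_pow (by norm_num)]
    exact ENNReal.ofReal_le_ofReal (bw_le x n))

lemma bern_heavy {w : List Bool → ℝ} (hw : Splitting w) (n : ℕ) :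
    bern {x | bw (pre x n) ≤ w (pre x n)} ≤ ENNReal.ofReal (rho ^ n) := by
  have hsub : {x | bw (pre x n) ≤ w (pre x n)} ⊆
      ⋃ s ∈ (lev n).filter (fun s => bw s ≤ w s), node s := by
    intro x hx
    simp only [Set.mem_iUnion, exists_prop]
    refine ⟨pre x n, Finset.mem_filter.2 ⟨pre_mem_lev x n, hx⟩, ?_⟩
    show pre x (pre x n).length = pre x n
    rw [pre_length]
  refine (measure_mono hsub).trans ((measure_biUnion_finset_le _ _).trans ?_)
  simp only [bern_node]
  rw [← ENNReal.ofReal_sum_of_nonneg (fun s _ => (bw_pos s).le)]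
  exact ENNReal.ofReal_le_ofReal (sum_heavy hw n)

lemma bern_exc {w : List Bool → ℝ} (hw : Splitting w) : bern (exc w) = 0 := by
  have h : (∑' n, bern {x | bw (pre x n) ≤ w (pre x n)}) ≠ ∞ := by
    refine ne_top_of_le_ne_top ?_ (ENNReal.tsum_le_tsum (bern_heavy hw))
    rw [← ENNReal.ofReal_tsum_of_nonneg (fun n => pow_nonneg rho_pos.le n)
      (summable_geometric_of_lt_one rho_pos.le rho_lt_one)]
    exact ENNReal.ofReal_ne_top
  have h2 := measure_setOfPred_frequently_eq_zero (p := fun n x => bw (pre x n) ≤ w (pre x n)) h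
  rw [← h2]
  congr 1
  ext x
  simp only [exc, Set.mem_ofPred_eq, Filter.frequently_atTop]

lemma measurable_pre (n : ℕ) (p : List Bool → Prop) : MeasurableSet {x : ℕ → Bool | p (pre x n)} := by
  have : {x : ℕ → Bool | p (pre x n)} = ⋃ s ∈ {s | s ∈ lev n ∧ p s}, node s := by
    ext x
    simp only [Set.mem_ofPred_eq, Set.mem_iUnion, exists_prop]
    constructor
    · intro h
      exact ⟨pre x n, ⟨pre_mem_lev x n, h⟩, by show pre x (pre x n).length = pre x n; rw [pre_length]⟩
    · rintro ⟨s, ⟨hs, hp⟩, hx⟩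
      have : pre x s.length = s := hx
      rw [mem_lev.1 hs] at this
      rw [this]; exact hp
  rw [this]
  exact MeasurableSet.biUnion (Set.to_countable _) (fun s _ => measurableSet_node s)

lemma measurableSet_exc (w : List Bool → ℝ) : MeasurableSet (exc w) := by
  have : exc w = ⋂ m, ⋃ n, {x | m ≤ n ∧ bw (pre x n) ≤ w (pre x n)} := by
    ext x; simp [exc]
  rw [this]
  refine MeasurableSet.iInter fun m => MeasurableSet.iUnion fun n => ?_
  exact measurable_pre n (fun s => m ≤ n ∧ bw s ≤ w s)

end Pool.Agent.LibDD
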