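import Pool.Agent.Lib_MP_dd3545_lc.Strings
import Pool.Agent.Lib_Forcing.Numbers

/-!
The forcing adding a generic Sierpinski set for `bern`, and the resulting ω-model of ZFC.
-/

namespace Pool.Agent.LibDD

open MeasureTheory Set Pool.Agent.Forcing Pool.Agent.Forcing.Name
open scoped ENNReal

/-- conditions: a countable set of points and a null set to be avoided from now on -/
structure Cond where
  a : Set (ℕ → Bool)
  N : Set (ℕ → Bool)
  ctbl : a.Countable
  null : bern N = 0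

instance : Preorder Cond where
  le q p := p.a ⊆ q.a ∧ p.N ⊆ q.N ∧ ∀ x ∈ q.a, x ∈ p.N → x ∈ p.a
  le_refl p := ⟨subset_rfl, subset_rfl, fun _ h _ => h⟩
  le_trans r q p h1 h2 := ⟨h2.1.trans h1.1, h2.2.1.trans h1.2.1, fun x hx hxN =>
    h2.2.2 x (h1.2.2 x hx (h2.2.1 hxN)) hxN⟩

lemma Cond.le_iff {q p : Cond} : q ≤ p ↔ p.a ⊆ q.a ∧ p.N ⊆ q.N ∧ ∀ x ∈ q.a, x ∈ p.N → x ∈ p.a :=
  Iff.rfl

instance : OrderTop Cond where
  top := ⟨∅, ∅, Set.countable_empty, measure_empty⟩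
  le_top _ := ⟨Set.empty_subset _, Set.empty_subset _, fun _ _ h => h⟩

lemma Cond.sigmaClosed : SigmaClosed Cond := by
  intro G hG
  refine ⟨⟨⋃ n, (G n).a, ⋃ n, (G n).N, Set.countable_iUnion fun n => (G n).ctbl,
    measure_iUnion_null fun n => (G n).null⟩, fun n => ⟨Set.subset_iUnion (fun n => (G n).a) n,
    Set.subset_iUnion (fun n => (G n).N) n, ?_⟩⟩
  intro x hx hxN
  obtain ⟨k, hk⟩ := Set.mem_iUnion.1 hx
  exact (hG (le_max_left n k)).2.2 x ((hG (le_max_right n k)).1 hk) hxN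

/-- canonical name of a point of Cantor space -/
def ptName (x : ℕ → Bool) : Name Cond := subName {n | x n = true}

/-- the generic set of points -/
def genName : Name Cond :=
  Name.mk {t : (ℕ → Bool) × Cond // t.1 ∈ t.2.a} (fun t => ptName t.1.1) (fun t => t.1.2)

lemma fmem_genName {y : Name Cond} {p : Cond} :
    fmem y genName p ↔ ∀ q ≤ p, ∃ r ≤ q, ∃ x ∈ r.a, feq y (ptName x) r := by
  constructor
  · intro h q hq
    obtain ⟨r, hr, ⟨⟨x, c⟩, hx⟩, h1, h2⟩ := h q hq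
    exact ⟨r, hr, x, h1.1 hx, h2⟩
  · intro h q hq
    obtain ⟨r, hr, x, hx, h1⟩ := h q hq
    exact ⟨r, hr, ⟨(x, r), hx⟩, le_rfl, h1⟩

/-- tree code -/
def treeCode (P : Set (ℕ → Bool)) : Set ℕ := strCode '' {s | (P ∩ cylS s).Nonempty}

lemma treeCode_inj {P Q : Set (ℕ → Bool)} (hP : IsClosed P) (hQ : IsClosed Q)
    (h : treeCode P = treeCode Q) : P = Q :=
  closed_eq_of_tree hP hQ (strCode_injective.image_injective h)

/-- the property of the cover name -/
def CovP (x : Name Cond) (k : ℕ) (c : Name Cond) (q : Cond) : Prop :=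
  ∃ S, DecAs x S q ∧ ∀ P : Set (ℕ → Bool), Perfect P → P.Nonempty → treeCode P = S →
    ∃ C : Set (List Bool), (∑' s : C, canonicalMeasure P (cylS s)) ≤ (1/2) ^ k ∧
      feq c (subName (strCode '' C)) q ∧
      (∀ z ∈ q.a, z ∈ P → z ∈ ⋃ s ∈ C, cylS s) ∧ (∀ z ∈ P, z ∉ ⋃ s ∈ C, cylS s → z ∈ q.N)

lemma CovP.mono {x c : Name Cond} {k : ℕ} {p q : Cond} (hq : q ≤ p) (h : CovP x k c p) :
    CovP x k c q := by
  obtain ⟨S, hS, h⟩ := h
  refine ⟨S, hS.mono hq, fun P hP hne hPS => ?_⟩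
  obtain ⟨C, h1, h2, h3, h4⟩ := h P hP hne hPS
  refine ⟨C, h1, feq_mono h2 hq, fun z hz hzP => ?_, fun z hz hzC => hq.2.1 (h4 z hz hzC)⟩
  by_contra hcon
  exact hcon (h3 z (hq.2.2 z hz (h4 z hzP hcon)) hzP)

lemma exists_cov (x : Name Cond) (k : ℕ) : ∃ c, ∀ p, ∃ q ≤ p, CovP x k c q := by
  apply exists_name_dense
  · exact fun c p q hq h => h.mono hq
  · rintro c c' p hcc' ⟨S, hS, h⟩
    refine ⟨S, hS, fun P hP hne hPS => ?_⟩
    obtain ⟨C, h1, h2, h3, h4⟩ := h P hP hne hPS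
    exact ⟨C, h1, feq_trans (feq_symm hcc') h2, h3, h4⟩
  · intro p
    obtain ⟨q, hq, S, hS⟩ := Cond.sigmaClosed.exists_decAs x p
    by_cases hex : ∃ P : Set (ℕ → Bool), Perfect P ∧ P.Nonempty ∧ treeCode P = S
    · obtain ⟨P, hP, hne, hPS⟩ := hex
      obtain ⟨C, h1, h2, h3⟩ := exists_cover_strings hP hne q.ctbl k
      let q' : Cond := ⟨q.a, q.N ∪ exc (wt P), q.ctbl,
        measure_union_null q.null (bern_exc (splitting_wt P))⟩
      have hq' : q' ≤ q := ⟨subset_rfl, Set.subset_union_left, fun _ h _ => h⟩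
      refine ⟨q', hq'.trans hq, subName (strCode '' C), S, hS.mono hq', ?_⟩
      intro P' hP' _ hPS'
      have : P' = P := treeCode_inj hP'.closed hP.closed (hPS'.trans hPS.symm)
      subst this
      exact ⟨C, h1, feq_refl _ _, h2, fun z hz hzC => Or.inr (h3 z hz hzC)⟩
    · refine ⟨q, hq, x, S, hS, fun P hP hne hPS => ?_⟩
      exact absurd ⟨P, hP, hne, hPS⟩ hex

/-- the property of the name of a point outside a small open set -/
def PtP (c : Name Cond) (y : Name Cond) (q : Cond) : Prop :=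
  ∃ S, DecAs c S q ∧ ∀ C : Set (List Bool), strCode '' C = S →
    (∑' s : C, bern (cylS s)) ≤ 1/2 → ∃ x ∈ q.a, x ∉ ⋃ s ∈ C, cylS s ∧ feq y (ptName x) q

lemma PtP.mono {c y : Name Cond} {p q : Cond} (hq : q ≤ p) (h : PtP c y p) : PtP c y q := by
  obtain ⟨S, hS, h⟩ := h
  refine ⟨S, hS.mono hq, fun C hC hs => ?_⟩
  obtain ⟨x, h1, h2, h3⟩ := h C hC hs
  exact ⟨x, hq.1 h1, h2, feq_mono h3 hq⟩

lemma exists_pt (c : Name Cond) : ∃ y, ∀ p, ∃ q ≤ p, PtP c y q := by
  apply exists_name_dense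
  · exact fun c p q hq h => h.mono hq
  · rintro y y' p hyy' ⟨S, hS, h⟩
    refine ⟨S, hS, fun C hC hs => ?_⟩
    obtain ⟨x, h1, h2, h3⟩ := h C hC hs
    exact ⟨x, h1, h2, feq_trans (feq_symm hyy') h3⟩
  · intro p
    obtain ⟨q, hq, S, hS⟩ := Cond.sigmaClosed.exists_decAs c p
    by_cases hex : ∃ C : Set (List Bool), strCode '' C = S ∧ (∑' s : C, bern (cylS s)) ≤ 1/2
    · obtain ⟨C, hC, hs⟩ := hex
      obtain ⟨x, h1, h2, _⟩ := exists_point_outside q.ctbl q.null hs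
      let q' : Cond := ⟨insert x q.a, q.N, q.ctbl.insert x, q.null⟩
      have hq' : q' ≤ q := ⟨Set.subset_insert _ _, subset_rfl, fun z hz hzN => by
        rcases Set.mem_insert_iff.1 hz with rfl | hz
        · exact absurd hzN h2
        · exact hz⟩
      refine ⟨q', hq'.trans hq, ptName x, S, hS.mono hq', fun C' hC' _ => ?_⟩
      have : C' = C := strCode_injective.image_injective (hC'.trans hC.symm)
      subst this
      exact ⟨x, Set.mem_insert _ _, h1, feq_refl _ _⟩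
    · refine ⟨q, hq, c, S, hS, fun C hC hs => ?_⟩
      exact absurd ⟨C, hC, hs⟩ hex

/-- the code of the Bernoulli measure -/
def bernCode : Set ℕ :=
  {m | ∃ (s : List Bool) (k n : ℕ), m = Nat.pair (strCode s) (Nat.pair k n) ∧
    (k : ℝ≥0∞) < 2 ^ n * bern (cylS s)}

/-- names that must be in the model -/
inductive Op : Type
  | num (n : ℕ) : Op
  | omega : Op
  | gen : Op
  | bern : Op
  | cov (k : ℕ) : Op
  | pt : Op
  deriving Countable

/-- dense sets to be met -/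
inductive Dn : Type
  | omega : Dn
  | dec : Dn
  | gen : Dn
  | cov (k : ℕ) : Dn
  | pt : Dn
  deriving Countable

/-- The main model-theoretic theorem. -/
theorem exists_model : ∃ (M : Type 1) (E : M → M → Prop), Countable M ∧ ModelsZFC E ∧
    OmegaModel E ∧ ∃ A : M, IsSetOfReals E A ∧ PerfectlyNullIn E A ∧ ¬ UniversallyNullIn E A := by
  classical
  choose cov hcov using exists_cov
  choose pt hpt using exists_pt
  have : Nonempty Op := ⟨.omega⟩
  have : Nonempty Dn := ⟨.omega⟩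
  let ops : Op → List (Name Cond) → Name Cond := fun o l => match o with
    | .num n => Forcing.num n
    | .omega => omegaName
    | .gen => genName
    | .bern => subName bernCode
    | .cov k => cov (l.headD emptyName) k
    | .pt => pt (l.headD emptyName)
  let D : Dn → List (Name Cond) → Set Cond := fun d l => match d with
    | .omega => {q | (∀ r ≤ q, ¬ fmem (l.headD emptyName) omegaName r) ∨
        ∃ n, feq (l.headD emptyName) (Forcing.num n) q}
    | .dec => {q | ∃ S, DecAs (l.headD emptyName) S q}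
    | .gen => {q | (∀ r ≤ q, ¬ fmem (l.headD emptyName) genName r) ∨
        ∃ x ∈ q.a, feq (l.headD emptyName) (ptName x) q}
    | .cov k => {q | CovP (l.headD emptyName) k (cov (l.headD emptyName) k) q}
    | .pt => {q | PtP (l.headD emptyName) (pt (l.headD emptyName)) q}
  have hD : ∀ d l p, ∃ q ≤ p, q ∈ D d l := by
    intro d l p
    cases d with
    | omega =>
      by_cases h : ∃ q ≤ p, fmem (l.headD emptyName) omegaName q
      · obtain ⟨q, hq, h⟩ := h
        rw [fmem_omegaName] at h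
        obtain ⟨r, hr, n, hn⟩ := h q le_rfl
        exact ⟨r, hr.trans hq, Or.inr ⟨n, hn⟩⟩
      · push Not at h
        exact ⟨p, le_rfl, Or.inl h⟩
    | dec => exact Cond.sigmaClosed.exists_decAs _ p
    | gen =>
      by_cases h : ∃ q ≤ p, fmem (l.headD emptyName) genName q
      · obtain ⟨q, hq, h⟩ := h
        rw [fmem_genName] at h
        obtain ⟨r, hr, x, hx, hn⟩ := h q le_rfl
        exact ⟨r, hr.trans hq, Or.inr ⟨x, hx, hn⟩⟩
      · push Not at h
        exact ⟨p, le_rfl, Or.inl h⟩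
    | cov k => exact hcov _ k p
    | pt => exact hpt _ p
  obtain ⟨𝔊, -, hops, hdense⟩ := exists_gen' ops D hD ⊤
  have hN : ∀ n, Forcing.num n ∈ 𝔊.N := fun n => hops (.num n) [] (by simp)
  have hω : omegaName ∈ 𝔊.N := hops .omega [] (by simp)
  have hgen : genName ∈ 𝔊.N := hops .gen [] (by simp)
  have hbern : subName bernCode ∈ 𝔊.N := hops .bern [] (by simp)
  have hsingle : ∀ x ∈ 𝔊.N, ∀ y ∈ [x], y ∈ 𝔊.N := by
    intro x hx y hy
    rw [List.mem_singleton] at hy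
    rw [hy]; exact hx
  have hcovN : ∀ x ∈ 𝔊.N, ∀ k, cov x k ∈ 𝔊.N := fun x hx k => hops (.cov k) [x] (hsingle x hx)
  have hptN : ∀ x ∈ 𝔊.N, pt x ∈ 𝔊.N := fun x hx => hops .pt [x] (hsingle x hx)
  have hDω : ∀ z ∈ 𝔊.N, ∃ k, (∀ r ≤ 𝔊.G k, ¬ fmem z omegaName r) ∨
      ∃ n, feq z (Forcing.num n) (𝔊.G k) := fun z hz => hdense .omega [z] (hsingle z hz)
  have hDdec : ∀ z ∈ 𝔊.N, ∃ k S, DecAs z S (𝔊.G k) := fun z hz => hdense .dec [z] (hsingle z hz)
  have hDgen : ∀ z ∈ 𝔊.N, ∃ k, (∀ r ≤ 𝔊.G k, ¬ fmem z genName r) ∨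
      ∃ x ∈ (𝔊.G k).a, feq z (ptName x) (𝔊.G k) := fun z hz => hdense .gen [z] (hsingle z hz)
  have hDcov : ∀ z ∈ 𝔊.N, ∀ m, ∃ k, CovP z m (cov z m) (𝔊.G k) :=
    fun z hz m => hdense (.cov m) [z] (hsingle z hz)
  have hDpt : ∀ z ∈ 𝔊.N, ∃ k, PtP z (pt z) (𝔊.G k) := fun z hz => hdense .pt [z] (hsingle z hz)
  -- the set A
  let A : 𝔊.M := 𝔊.cls ⟨genName, hgen⟩
  -- elements of A
  have hA : ∀ y : 𝔊.N, 𝔊.E (𝔊.cls y) A → ∃ k, ∃ x ∈ (𝔊.G k).a, feq y.1 (ptName x) (𝔊.G k) := by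
    rintro y ⟨m, hm⟩
    obtain ⟨k, h | h⟩ := hDgen y.1 y.2
    · exact absurd (fmem_mono hm (𝔊.anti (le_max_right k m))) (h _ (𝔊.anti (le_max_left k m)))
    · exact ⟨k, h⟩
  have htr : ∀ (y : 𝔊.N) (x : ℕ → Bool) (k : ℕ), feq y.1 (ptName x) (𝔊.G k) →
      natTrace 𝔊.E (𝔊.cls y) = {n | x n = true} := by
    intro y x k hk
    apply Gen.natTrace_of_decAs hN (k := k)
    intro n
    constructor
    · intro hn
      exact fmem_congr_right (feq_symm hk) (fmem_num_subName.2 hn)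
    · intro hn r hr hcon
      exact hn (fmem_num_subName.1 (fmem_congr_right (feq_mono hk hr) hcon))
  refine ⟨𝔊.M, 𝔊.E, ?_, 𝔊.modelsZFC, Gen.omegaModel hN hω hDω, A, ?_, ?_, ?_⟩
  · -- countable
    have := 𝔊.countable.to_subtype
    exact (Quotient.mk_surjective (s := 𝔊.setoid)).countable
  · -- set of reals
    intro a ha z hz
    obtain ⟨y, rfl⟩ := 𝔊.exists_rep a
    obtain ⟨k, x, _, hyx⟩ := hA y ha
    obtain ⟨z', rfl⟩ := 𝔊.exists_rep z
    obtain ⟨m, hm⟩ := hz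
    have h1 : fmem z'.1 omegaName (𝔊.G (max k m)) := by
      have h2 := fmem_congr_right (feq_mono hyx (𝔊.anti (le_max_left k m)))
        (fmem_mono hm (𝔊.anti (le_max_right k m)))
      rw [ptName, fmem_subName] at h2
      rw [fmem_omegaName]
      intro q hq
      obtain ⟨r, hr, n, _, hn⟩ := h2 q hq
      exact ⟨r, hr, n, hn⟩
    obtain ⟨j, h | ⟨n, hn⟩⟩ := hDω z'.1 z'.2
    · exact absurd (fmem_mono h1 (𝔊.anti (le_max_right j (max k m))))
        (h _ (𝔊.anti (le_max_left j (max k m))))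
    · exact ⟨n, (Gen.isNum_num hN n _).2 ((𝔊.cls_eq).2 ⟨j, hn⟩)⟩
  · -- perfectly null
    intro P hP hne hcode k
    obtain ⟨t, ht⟩ := hcode
    obtain ⟨x, rfl⟩ := 𝔊.exists_rep t
    obtain ⟨n, S, hS, hC⟩ := hDcov x.1 x.2 k
    have hS' : treeCode P = S := by
      rw [← Gen.natTrace_of_decAs hN hS, ht]; rfl
    obtain ⟨C, h1, h2, h3, h4⟩ := hC P hP hne hS'
    refine ⟨C, ⟨𝔊.cls ⟨cov x.1 k, hcovN x.1 x.2 k⟩, ?_⟩, h1, ?_⟩
    · apply Gen.natTrace_of_decAs hN (k := n)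
      intro j
      constructor
      · intro hj
        exact fmem_congr_right (feq_symm h2) (fmem_num_subName.2 hj)
      · intro hj r hr hcon
        exact hj (fmem_num_subName.1 (fmem_congr_right (feq_mono h2 hr) hcon))
    · rintro z ⟨⟨a, ha, hza⟩, hzP⟩
      obtain ⟨y, rfl⟩ := 𝔊.exists_rep a
      obtain ⟨m, x', hx'a, hyx'⟩ := hA y ha
      have e1 := htr y x' m hyx'
      rw [hza] at e1
      have e2 : z = x' := by
        funext i
        have : (i ∈ {n | z n = true}) ↔ (i ∈ {n | x' n = true}) := by rw [e1]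
        simp only [Set.mem_ofPred_eq] at this
        cases h5 : z i <;> cases h6 : x' i <;> simp_all
      subst e2
      by_contra hcon
      have h5 : z ∈ (𝔊.G n).N := h4 z hzP hcon
      have hle1 : 𝔊.G (max n m) ≤ 𝔊.G n := 𝔊.anti (le_max_left n m)
      have hle2 : 𝔊.G (max n m) ≤ 𝔊.G m := 𝔊.anti (le_max_right n m)
      have h6 : z ∈ (𝔊.G (max n m)).a := hle2.1 hx'a
      exact hcon (h3 z (hle1.2.2 z h6 h5) hzP)
  · -- not universally null
    intro hU
    have hb : CodedMeasure 𝔊.E bern := by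
      refine ⟨𝔊.cls ⟨subName bernCode, hbern⟩, ?_⟩
      exact Gen.natTrace_of_decAs hN (k := 0)
        (fun j => ⟨fun hj => fmem_num_subName.2 hj, fun hj r _ hcon => hj (fmem_num_subName.1 hcon)⟩)
    obtain ⟨C, ⟨c, hc⟩, hs, hsub⟩ := hU bern inferInstance (fun x => measure_singleton x) hb 1
    obtain ⟨x, rfl⟩ := 𝔊.exists_rep c
    obtain ⟨n, S, hS, hC⟩ := hDpt x.1 x.2
    have hS' : strCode '' C = S := by
      rw [← Gen.natTrace_of_decAs hN hS, hc]
    rw [pow_one] at hs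
    obtain ⟨z, hz1, hz2, hz3⟩ := hC C hS' hs
    apply hz2
    apply hsub
    refine ⟨𝔊.cls ⟨pt x.1, hptN x.1 x.2⟩, ⟨n, ?_⟩, htr _ z n hz3⟩
    rw [fmem_genName]
    exact fun q hq => ⟨q, le_rfl, z, hq.1 hz1, feq_mono hz3 hq⟩

end Pool.Agent.LibDD
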