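import Pool.Agent.Lib_MP_dd3545_lc.Canon
import Mathlib.MeasureTheory.MeasurableSpace.Card
import Mathlib.MeasureTheory.MeasurableSpace.CountablyGenerated
import Mathlib.SetTheory.Cardinal.Continuum

/-!
Sierpinski sets under CH.
-/

namespace Pool.Agent.LibDD

open MeasureTheory Set
open scoped ENNReal Classical Cardinal

lemma card_measurableSets : #{t : Set (ℕ → Bool) | MeasurableSet t} ≤ 𝔠 := by
  have h := MeasurableSpace.cardinal_measurableSet_le_continuum
    (s := MeasurableSpace.countableGeneratingSet (ℕ → Bool))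
    ((Cardinal.mk_le_aleph0_iff.2
      (MeasurableSpace.countable_countableGeneratingSet).to_subtype).trans
      Cardinal.aleph0_le_continuum)
  rwa [MeasurableSpace.generateFrom_countableGeneratingSet] at h

/-- Under CH there is a Sierpinski set for every nonzero atomless measure on Cantor space. -/
theorem exists_sierpinski (CH : (𝔠 : Cardinal.{0}) = ℵ₁) (ν : Measure (ℕ → Bool)) (h0 : ν ≠ 0)
    (hat : ∀ x, ν {x} = 0) :
    ∃ A : Set (ℕ → Bool), ν A ≠ 0 ∧ ∀ N, ν N = 0 → (A ∩ N).Countable := by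
  -- index set
  let I := (Cardinal.aleph 1 : Cardinal.{0}).ord.ToType
  have hI : #I = ℵ₁ := Cardinal.mk_ord_toType _
  have hcount : ∀ i : I, (Set.Iio i).Countable := by
    intro i
    have h1 : #(Set.Iio i) < #I := Cardinal.mk_Iio_lt i (by rw [hI]; exact (Ordinal.type_toType _).symm)
    have h2 : #(Set.Iio i) < Order.succ ℵ₀ := lt_of_lt_of_eq h1 (hI.trans Cardinal.succ_aleph0.symm)
    exact Cardinal.le_aleph0_iff_set_countable.1 (Order.lt_succ_iff.1 h2)
  have hcount' : ∀ i : I, (Set.Iic i).Countable := by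
    intro i
    have : Set.Iic i = insert i (Set.Iio i) := by
      ext j; simp [le_iff_lt_or_eq, or_comm]
    rw [this]
    exact (hcount i).insert i
  -- enumeration of null measurable sets
  let 𝒩 := {N : Set (ℕ → Bool) // MeasurableSet N ∧ ν N = 0}
  have h𝒩 : #𝒩 ≤ #I := by
    rw [hI, ← CH]
    refine le_trans ?_ card_measurableSets
    exact Cardinal.mk_subtype_mono (fun t ht => ht.1)
  have : Nonempty 𝒩 := ⟨⟨∅, MeasurableSet.empty, measure_empty⟩⟩
  obtain ⟨f⟩ : Nonempty (𝒩 ↪ I) := h𝒩
  let e : I → 𝒩 := Function.invFun f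
  have he : Function.Surjective e := Function.invFun_surjective f.injective
  -- recursive choice
  have hstep : ∀ (i : I) (g : ∀ j : I, j < i → (ℕ → Bool)),
      ∃ x : ℕ → Bool, (∀ j, j ≤ i → x ∉ (e j).1) ∧ ∀ j (hj : j < i), x ≠ g j hj := by
    intro i g
    have hnull : ν ((⋃ j ∈ Set.Iic i, (e j).1) ∪ (⋃ j : Set.Iio i, {g j.1 j.2})) = 0 := by
      rw [measure_union_null_iff]
      constructor
      · rw [measure_biUnion_null_iff (hcount' i)]
        exact fun j _ => (e j).2.2
      · have := (hcount i).to_subtype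
        rw [measure_iUnion_null_iff]
        exact fun j => hat _
    have hne : ((⋃ j ∈ Set.Iic i, (e j).1) ∪ (⋃ j : Set.Iio i, {g j.1 j.2})) ≠ Set.univ := by
      intro h
      rw [h] at hnull
      exact h0 (Measure.measure_univ_eq_zero.1 hnull)
    obtain ⟨x, hx⟩ := (Set.ne_univ_iff_exists_notMem _).1 hne
    refine ⟨x, fun j hj hxj => hx ?_, fun j hj hxj => hx ?_⟩
    · left
      rw [Set.mem_iUnion₂]
      exact ⟨j, hj, hxj⟩
    · right
      rw [Set.mem_iUnion]
      exact ⟨⟨j, hj⟩, hxj⟩
  choose F hF1 hF2 using hstep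
  let x : I → (ℕ → Bool) := WellFoundedLT.fix (fun i g => F i g)
  have hx : ∀ i, x i = F i (fun j _ => x j) := fun i => WellFoundedLT.fix_eq _ i
  have hx1 : ∀ i j, j ≤ i → x i ∉ (e j).1 := by
    intro i j hj
    rw [hx i]
    exact hF1 i _ j hj
  have hx2 : ∀ i j, j < i → x i ≠ x j := by
    intro i j hj
    rw [hx i]
    exact hF2 i _ j hj
  have hinj : Function.Injective x := by
    intro i j hij
    rcases lt_trichotomy i j with h | h | h
    · exact absurd hij.symm (hx2 j i h)
    · exact h
    · exact absurd hij (hx2 i j h)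
  have hsmall : ∀ N, ν N = 0 → (Set.range x ∩ N).Countable := by
    intro N hN
    obtain ⟨j, hj⟩ := he ⟨toMeasurable ν N, measurableSet_toMeasurable ν N,
      by rw [measure_toMeasurable]; exact hN⟩
    have hsub : Set.range x ∩ N ⊆ x '' Set.Iio j := by
      rintro _ ⟨⟨i, rfl⟩, hi⟩
      refine ⟨i, ?_, rfl⟩
      by_contra hij
      apply hx1 i j (not_lt.1 hij)
      rw [hj]
      exact subset_toMeasurable ν N hi
    exact ((hcount j).image x).mono hsub
  refine ⟨Set.range x, ?_, hsmall⟩
  intro hzero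
  have h1 := hsmall _ hzero
  rw [Set.inter_self, ← Cardinal.le_aleph0_iff_set_countable, Cardinal.mk_range_eq x hinj, hI,
    ← Cardinal.succ_aleph0] at h1
  exact absurd h1 (not_le.2 (Order.lt_succ _))

end Pool.Agent.LibDD
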