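import Pool.Agent.Lib_MP_dd3545_lc.InModel
import Pool.Agent.Lib_MP_dd3545_lc.Main

/-!
Strings, codes and covers.
-/

namespace Pool.Agent.LibDD

open MeasureTheory Set
open scoped ENNReal

lemma strCode_pos (s : List Bool) : 0 < strCode s := by
  induction s with
  | nil => simp [strCode]
  | cons b s ih => simp only [strCode]; omega

lemma strCode_injective : Function.Injective strCode := by
  intro s
  induction s with
  | nil =>
    intro t h
    cases t with
    | nil => rfl
    | cons b t =>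
      have := strCode_pos t
      simp only [strCode] at h
      split_ifs at h <;> omega
  | cons b s ih =>
    intro t h
    cases t with
    | nil =>
      have := strCode_pos s
      simp only [strCode] at h
      split_ifs at h <;> omega
    | cons c t =>
      simp only [strCode] at h
      cases b <;> cases c <;> simp at h
      · rw [ih h]
      · omega
      · omega
      · rw [ih h]

lemma pre_reverse (x : ℕ → Bool) (n : ℕ) : (pre x n).reverse = (List.range n).map x := by
  induction n with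
  | zero => rfl
  | succ n ih => rw [pre_succ, List.reverse_cons, ih, List.range_succ, List.map_append]; rfl

lemma cylS_eq_node (s : List Bool) : cylS s = node s.reverse := by
  ext x
  show (∀ i, ∀ h : i < s.length, x i = s[i]) ↔ pre x s.reverse.length = s.reverse
  rw [← List.reverse_inj, List.reverse_reverse, pre_reverse, List.length_reverse]
  constructor
  · intro h
    apply List.ext_getElem
    · simp
    · intro i h1 h2
      simp only [List.getElem_map, List.getElem_range]
      exact h i h2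
  · intro h i hi
    have : ((List.range s.length).map x)[i]'(by simpa using hi) = s[i] := by
      simp only [h]
    simpa using this

lemma cylS_reverse (s : List Bool) : cylS s.reverse = node s := by
  rw [cylS_eq_node, List.reverse_reverse]

/-- prefix as a string -/
def pstr (x : ℕ → Bool) (n : ℕ) : List Bool := (pre x n).reverse

lemma cylS_pstr (x : ℕ → Bool) (n : ℕ) : cylS (pstr x n) = cyl x n := by
  rw [pstr, cylS_reverse, node_pre]

lemma measurableSet_cylS (s : List Bool) : MeasurableSet (cylS s) := by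
  rw [cylS_eq_node]; exact measurableSet_node _

lemma closed_eq_of_tree {P Q : Set (ℕ → Bool)} (hP : IsClosed P) (hQ : IsClosed Q)
    (h : {s | (P ∩ cylS s).Nonempty} = {s | (Q ∩ cylS s).Nonempty}) : P = Q := by
  have key : ∀ {P Q : Set (ℕ → Bool)}, IsClosed Q →
      {s | (P ∩ cylS s).Nonempty} = {s | (Q ∩ cylS s).Nonempty} → P ⊆ Q := by
    intro P Q hQ h x hx
    by_contra hxQ
    have h1 : Qᶜ ∈ nhds x := hQ.isOpen_compl.mem_nhds hxQ
    obtain ⟨n, hn⟩ : ∃ n, cyl x n ⊆ Qᶜ := by
      obtain ⟨s, ⟨y, n, rfl⟩, hx1, hx2⟩ :=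
        (PiNat.isTopologicalBasis_cylinders (fun _ : ℕ => Bool)).mem_nhds_iff.1 h1
      refine ⟨n, fun z hz => hx2 ?_⟩
      intro i hi
      rw [hz i hi]
      exact hx1 i hi
    have h2 : pstr x n ∈ {s | (P ∩ cylS s).Nonempty} :=
      ⟨x, hx, by rw [cylS_pstr]; exact self_mem_cyl x n⟩
    rw [h] at h2
    obtain ⟨z, hz1, hz2⟩ := h2
    rw [cylS_pstr] at hz2
    exact hn hz2 hz1
  exact Set.Subset.antisymm (key hQ h) (key hP h.symm)

lemma canonicalMeasure_node_le {P : Set (ℕ → Bool)} (hP : Perfect P) (hne : P.Nonempty)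
    (s : List Bool) : canonicalMeasure P (node s) ≤ ENNReal.ofReal (wt P s) := by
  rw [canonicalMeasure, Measure.map_apply (continuous_canonicalMap hP hne).measurable
    (measurableSet_node s), preimage_canonicalMap hP hne]
  exact coin_turns_node P s

lemma exists_small_cyl {P : Set (ℕ → Bool)} (hP : Perfect P) (hne : P.Nonempty)
    {x : ℕ → Bool} (hx : x ∈ P) {ε : ℝ≥0∞} (hε : 0 < ε) :
    ∃ n, canonicalMeasure P (cyl x n) ≤ ε := by
  have h1 : Filter.Tendsto (fun n : ℕ => (1/2 : ℝ≥0∞) ^ n) Filter.atTop (nhds 0) :=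
    ENNReal.tendsto_pow_atTop_nhds_zero_of_lt_one
      (by rw [one_div]; exact ENNReal.inv_lt_one.2 ENNReal.one_lt_two)
  obtain ⟨c, hc⟩ := ((tendsto_order.1 h1).2 ε hε).exists
  refine ⟨Nat.nth (Splits P x) c + 1, ?_⟩
  rw [canonicalMeasure_cyl hP hne hx]
  refine le_trans ?_ hc.le
  exact pow_le_pow_right_of_le_one' (by rw [one_div]; exact ENNReal.inv_le_one.2 one_le_two)
    (nbr_unbounded hP hx c).le

/-- the covers used in the forcing argument -/
lemma exists_cover_strings {P : Set (ℕ → Bool)} (hP : Perfect P) (hne : P.Nonempty)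
    {a : Set (ℕ → Bool)} (ha : a.Countable) (k : ℕ) :
    ∃ C : Set (List Bool), (∑' s : C, canonicalMeasure P (cylS s)) ≤ (1/2) ^ k ∧
      (∀ z ∈ a, z ∈ P → z ∈ ⋃ s ∈ C, cylS s) ∧
      (∀ z ∈ P, z ∉ ⋃ s ∈ C, cylS s → z ∈ exc (wt P)) := by
  obtain ⟨C1, hC1, hC1'⟩ := exists_cover (splitting_wt P) (ε := (1/2)^(k+1)) (by positivity)
  have hac : (a ∩ P).Countable := ha.mono Set.inter_subset_left
  have := hac.to_subtype
  obtain ⟨δ, hδ, hsum⟩ := ENNReal.exists_pos_sum_of_countable'
    (ε := (1/2 : ℝ≥0∞)^(k+1)) (by simp) (a ∩ P : Set (ℕ → Bool))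
  have hch : ∀ z : (a ∩ P : Set (ℕ → Bool)), ∃ n, canonicalMeasure P (cyl z.1 n) ≤ δ z :=
    fun z => exists_small_cyl hP hne z.2.2 (hδ z)
  choose n hn using hch
  let C2 : Set (List Bool) := ⋃ z : (a ∩ P : Set (ℕ → Bool)), {pstr z.1 (n z)}
  refine ⟨(List.reverse '' C1) ∪ C2, ?_, ?_, ?_⟩
  · refine (ENNReal.tsum_union_le (fun s => canonicalMeasure P (cylS s)) _ _).trans ?_
    have e1 : (∑' s : (List.reverse '' C1 : Set (List Bool)), canonicalMeasure P (cylS s)) ≤
        (1/2)^(k+1) := by
      rw [tsum_image (f := fun s => canonicalMeasure P (cylS s)) (List.reverse_injective.injOn)]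
      simp only [cylS_reverse]
      refine (ENNReal.tsum_le_tsum fun s : C1 => canonicalMeasure_node_le hP hne s.1).trans ?_
      refine hC1.trans (le_of_eq ?_)
      rw [ENNReal.ofReal_pow (by norm_num), ENNReal.ofReal_div_of_pos (by norm_num)]
      simp
    have e2 : (∑' s : C2, canonicalMeasure P (cylS s)) ≤ (1/2)^(k+1) := by
      refine (ENNReal.tsum_iUnion_le_tsum (fun s => canonicalMeasure P (cylS s)) _).trans ?_
      refine le_trans (ENNReal.tsum_le_tsum fun z => ?_) hsum.le
      rw [tsum_singleton (f := fun s => canonicalMeasure P (cylS s)), cylS_pstr]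
      exact hn z
    refine (add_le_add e1 e2).trans (le_of_eq ?_)
    rw [pow_succ, ← mul_add, ENNReal.add_halves, mul_one]
  · intro z hza hzP
    rw [Set.mem_iUnion₂]
    refine ⟨pstr z (n ⟨z, hza, hzP⟩), Or.inr ?_, ?_⟩
    · exact Set.mem_iUnion.2 ⟨⟨z, hza, hzP⟩, rfl⟩
    · rw [cylS_pstr]; exact self_mem_cyl _ _
  · intro z _ hz
    by_contra hexc
    apply hz
    obtain ⟨m, hm⟩ := hC1' z hexc
    rw [Set.mem_iUnion₂]
    refine ⟨(pre z m).reverse, Or.inl ⟨_, hm, rfl⟩, ?_⟩
    rw [cylS_reverse, node_pre]; exact self_mem_cyl _ _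

lemma exists_point_outside {C : Set (List Bool)} {a N : Set (ℕ → Bool)} (ha : a.Countable)
    (hN : bern N = 0) (hC : (∑' s : C, bern (cylS s)) ≤ 1/2) :
    ∃ x, x ∉ ⋃ s ∈ C, cylS s ∧ x ∉ N ∧ x ∉ a := by
  by_contra hcon
  push Not at hcon
  have hsub : (Set.univ : Set (ℕ → Bool)) ⊆ (⋃ s ∈ C, cylS s) ∪ (N ∪ a) := by
    intro x _
    by_cases h1 : x ∈ ⋃ s ∈ C, cylS s
    · exact Or.inl h1
    · by_cases h2 : x ∈ N
      · exact Or.inr (Or.inl h2)
      · exact Or.inr (Or.inr (hcon x h1 h2))
  have h1 : bern Set.univ ≤ 1/2 := by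
    refine (measure_mono hsub).trans ((measure_union_le _ _).trans ?_)
    have h2 : bern (N ∪ a) = 0 := measure_union_null hN (ha.measure_zero _)
    rw [h2, add_zero]
    refine (measure_biUnion_le bern (Set.to_countable C) _).trans hC
  rw [measure_univ] at h1
  have h2 : (1/2 : ℝ≥0∞) < 1 := by rw [one_div]; exact ENNReal.inv_lt_one.2 ENNReal.one_lt_two
  exact absurd h1 (not_le.2 h2)

end Pool.Agent.LibDD
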