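import Pool.Agent.Lib_MP_dd3545_lc.Meas

/-!
Branching points, the inverse `turns P` of the canonical homeomorphism `h_P`, and the weights
of the canonical measure.
-/

namespace Pool.Agent.LibDD

open MeasureTheory Set
open scoped ENNReal Classical

lemma splits_congr {P : Set (ℕ → Bool)} {x z : ℕ → Bool} {n : ℕ} (h : ∀ i < n, z i = x i) :
    ∀ k < n, (Splits P z k ↔ Splits P x k) := by
  intro k hk
  have h1 : ∀ i < k, z i = x i := fun i hi => h i (hi.trans hk)
  have h2 : z k = x k := h k hk
  constructor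
  · rintro ⟨y, hy, h3, h4⟩
    exact ⟨y, hy, fun i hi => (h3 i hi).trans (h1 i hi), by rw [← h2]; exact h4⟩
  · rintro ⟨y, hy, h3, h4⟩
    exact ⟨y, hy, fun i hi => (h3 i hi).trans (h1 i hi).symm, by rw [h2]; exact h4⟩

lemma count_congr {p q : ℕ → Prop} {n : ℕ} (h : ∀ k < n, (p k ↔ q k)) :
    Nat.count p n = Nat.count q n :=
  le_antisymm (Nat.count_mono_left fun k hk hp => (h k hk).1 hp)
    (Nat.count_mono_left fun k hk hq => (h k hk).2 hq)

lemma nth_congr {p q : ℕ → Prop} {n : ℕ} (h : ∀ k < n, (p k ↔ q k)) {j : ℕ}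
    (hj : j < Nat.count p n) : Nat.nth p j = Nat.nth q j := by
  have h1 : Nat.nth p j < n := Nat.nth_lt_of_lt_count hj
  have hjp : ∀ hf : (Set.ofPred p).Finite, j < hf.toFinset.card := fun hf =>
    lt_of_lt_of_le hj (Nat.count_le_card hf n)
  have h2 : p (Nat.nth p j) := Nat.nth_mem j hjp
  have h3 : Nat.count p (Nat.nth p j) = j := Nat.count_nth hjp
  have h4 : q (Nat.nth p j) := (h _ h1).1 h2
  have h5 : Nat.count q (Nat.nth p j) = j := by
    rw [← h3]
    conv_lhs => rw [h3]
    exact (count_congr (fun k hk => h k (hk.trans h1))).symm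
  have h6 := Nat.nth_count h4
  rw [h5] at h6
  exact h6.symm

/-- number of branching points of `P` strictly below `x|n` -/
noncomputable def nbr (P : Set (ℕ → Bool)) (x : ℕ → Bool) (n : ℕ) : ℕ := Nat.count (Splits P x) n

lemma nbr_congr {P : Set (ℕ → Bool)} {x z : ℕ → Bool} {n : ℕ} (h : ∀ i < n, z i = x i) :
    nbr P z n = nbr P x n := count_congr (splits_congr h)

lemma turns_agree {P : Set (ℕ → Bool)} {x z : ℕ → Bool} {n : ℕ} (h : ∀ i < n, z i = x i) :
    ∀ j < nbr P x n, turns P z j = turns P x j := by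
  intro j hj
  have h1 : Nat.nth (Splits P x) j = Nat.nth (Splits P z) j :=
    nth_congr (fun k hk => (splits_congr h k hk).symm) hj
  have h2 : Nat.nth (Splits P x) j < n := Nat.nth_lt_of_lt_count hj
  simp only [turns]
  rw [← h1]
  exact h _ h2

lemma coin_turns_le {P : Set (ℕ → Bool)} {x : ℕ → Bool} {n : ℕ} :
    coin (turns P '' (P ∩ cyl x n)) ≤ (1/2) ^ (nbr P x n) := by
  rw [← coin_cyl (turns P x)]
  apply measure_mono
  rintro _ ⟨z, ⟨_, hz⟩, rfl⟩
  exact fun j hj => turns_agree hz j hj

/-- weight of a reversed node in the canonical measure of `P` -/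
noncomputable def wt (P : Set (ℕ → Bool)) (s : List Bool) : ℝ :=
  if h : ∃ x ∈ P, pre x s.length = s then (1/2) ^ (nbr P h.choose s.length) else 0

lemma wt_pre {P : Set (ℕ → Bool)} {x : ℕ → Bool} (hx : x ∈ P) (n : ℕ) :
    wt P (pre x n) = (1/2) ^ (nbr P x n) := by
  have h : ∃ y ∈ P, pre y (pre x n).length = pre x n := ⟨x, hx, by rw [pre_length]⟩
  rw [wt, dif_pos h]
  have h2 := h.choose_spec.2
  generalize h.choose = z at h2 ⊢
  rw [pre_length] at h2 ⊢
  rw [nbr_congr ((pre_eq_iff _ _ _).1 h2)]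

lemma wt_zero {P : Set (ℕ → Bool)} {s : List Bool} (h : ¬ ∃ x ∈ P, pre x s.length = s) :
    wt P s = 0 := by
  rw [wt, dif_neg h]

lemma nbr_succ (P : Set (ℕ → Bool)) (x : ℕ → Bool) (n : ℕ) :
    nbr P x (n+1) = nbr P x n + if Splits P x n then 1 else 0 := by
  rw [nbr, nbr, Nat.count_succ]

lemma splitting_wt (P : Set (ℕ → Bool)) : Splitting (wt P) := by
  refine ⟨?_, ?_, ?_⟩
  · intro s
    rw [wt]
    split_ifs
    · positivity
    · exact le_rfl
  · rw [wt]
    split_ifs
    · exact pow_le_one₀ (by norm_num) (by norm_num)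
    · norm_num
  · intro s
    by_cases hT : ∃ x ∈ P, pre x (true :: s).length = true :: s
    · obtain ⟨x, hx, hxs⟩ := hT
      simp only [List.length_cons, pre_succ, List.cons.injEq] at hxs
      obtain ⟨hx1, hx2⟩ := hxs
      by_cases hF : ∃ x ∈ P, pre x (false :: s).length = false :: s
      · obtain ⟨z, hz, hzs⟩ := hF
        simp only [List.length_cons, pre_succ, List.cons.injEq] at hzs
        obtain ⟨hz1, hz2⟩ := hzs
        left
        have hag : ∀ i < s.length, z i = x i := (pre_eq_iff _ _ _).1 (hz2.trans hx2.symm)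
        have e1 : wt P (true :: s) = (1/2) ^ (nbr P x (s.length+1)) := by
          rw [← wt_pre hx, pre_succ, hx1, hx2]
        have e2 : wt P (false :: s) = (1/2) ^ (nbr P z (s.length+1)) := by
          rw [← wt_pre hz, pre_succ, hz1, hz2]
        have e3 : wt P s = (1/2) ^ (nbr P x s.length) := by
          rw [← wt_pre hx, hx2]
        have s1 : Splits P x s.length := ⟨z, hz, hag, by rw [hx1, hz1]; simp⟩
        have s2 : Splits P z s.length := ⟨x, hx, fun i hi => (hag i hi).symm, by rw [hx1, hz1]; simp⟩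
        rw [e1, e2, e3, nbr_succ, nbr_succ, if_pos s1, if_pos s2, nbr_congr hag, pow_succ]
        constructor <;> linarith
      · right; left
        refine ⟨?_, wt_zero hF⟩
        have e1 : wt P (true :: s) = (1/2) ^ (nbr P x (s.length+1)) := by
          rw [← wt_pre hx, pre_succ, hx1, hx2]
        have e3 : wt P s = (1/2) ^ (nbr P x s.length) := by
          rw [← wt_pre hx, hx2]
        rw [e1, e3, nbr_succ]
        exact pow_le_pow_of_le_one (by norm_num) (by norm_num) (Nat.le_add_right _ _)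
    · right; right
      refine ⟨wt_zero hT, ?_⟩
      by_cases hF : ∃ x ∈ P, pre x (false :: s).length = false :: s
      · obtain ⟨z, hz, hzs⟩ := hF
        simp only [List.length_cons, pre_succ, List.cons.injEq] at hzs
        obtain ⟨hz1, hz2⟩ := hzs
        have e1 : wt P (false :: s) = (1/2) ^ (nbr P z (s.length+1)) := by
          rw [← wt_pre hz, pre_succ, hz1, hz2]
        have e3 : wt P s = (1/2) ^ (nbr P z s.length) := by
          rw [← wt_pre hz, hz2]
        rw [e1, e3, nbr_succ]
        exact pow_le_pow_of_le_one (by norm_num) (by norm_num) (Nat.le_add_right _ _)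
      · rw [wt_zero hF, wt]
        split_ifs
        · positivity
        · exact le_rfl

lemma coin_turns_node (P : Set (ℕ → Bool)) (s : List Bool) :
    coin (turns P '' (P ∩ node s)) ≤ ENNReal.ofReal (wt P s) := by
  by_cases h : ∃ x ∈ P, pre x s.length = s
  · obtain ⟨x, hx, hs⟩ := h
    rw [← hs, node_pre, wt_pre hx]
    refine coin_turns_le.trans ?_
    rw [ENNReal.ofReal_pow (by norm_num)]
    apply le_of_eq
    congr 1
    rw [ENNReal.ofReal_div_of_pos (by norm_num)]; simp
  · have : P ∩ node s = ∅ := by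
      ext x; simp only [mem_inter_iff, mem_empty_iff_false, iff_false]
      rintro ⟨h1, h2⟩
      exact h ⟨x, h1, h2⟩
    rw [this]; simp

/-- The exceptional set has full canonical measure in `P` -/
theorem coin_turns_diff_exc (P : Set (ℕ → Bool)) :
    coin (turns P '' (P \ exc (wt P))) = 0 := by
  refine le_antisymm ?_ zero_le
  apply ENNReal.le_of_forall_pos_le_add
  intro ε hε _
  rw [zero_add]
  obtain ⟨C, hC1, hC2⟩ := exists_cover (splitting_wt P) (ε := (ε : ℝ)) (by exact_mod_cast hε)
  have hsub : turns P '' (P \ exc (wt P)) ⊆ ⋃ s : C, turns P '' (P ∩ node s) := by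
    rintro _ ⟨x, ⟨hxP, hxe⟩, rfl⟩
    obtain ⟨n, hn⟩ := hC2 x hxe
    rw [Set.mem_iUnion]
    refine ⟨⟨pre x n, hn⟩, x, ⟨hxP, ?_⟩, rfl⟩
    show pre x (pre x n).length = pre x n
    rw [pre_length]
  refine (measure_mono hsub).trans ((measure_iUnion_le _).trans ?_)
  refine (ENNReal.tsum_le_tsum (fun s : C => coin_turns_node P s)).trans ?_
  refine hC1.trans ?_
  rw [ENNReal.ofReal_coe_nnreal]

end Pool.Agent.LibDD
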